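import Mathlib.ModelTheory.Graph

/-! Models of ZFC: structures `(M, E)`, where `E a b` is read as `a ∈ b`. -/

open FirstOrder

namespace Pool.Agent.ZFC77

variable {M : Type 1} (E : M → M → Prop)

/-- `x ⊆ y` -/
def ISub (x y : M) : Prop := ∀ z, E z x → E z y

/-- `w` is inductive -/
def IInd (w : M) : Prop :=
  (∃ e, E e w ∧ ∀ z, ¬ E z e) ∧ ∀ x, E x w → ∃ y, E y w ∧ ∀ z, E z y ↔ E z x ∨ z = x

/-- `w = ω` -/
def IOmega (w : M) : Prop := IInd E w ∧ ∀ z, IInd E z → ISub E w z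

/-- `z = {a, b}` -/
def IPair (a b z : M) : Prop := ∀ t, E t z ↔ t = a ∨ t = b

/-- the Kuratowski pair `(a, b)` belongs to `s` -/
def IApp (s a b : M) : Prop :=
  ∃ z, E z s ∧ ∃ u v, IPair E a a u ∧ IPair E a b v ∧ IPair E u v z

/-- `(M, E)` as a first-order structure for the language with one binary relation -/
@[reducible] def relStr : Language.graph.Structure M where
  RelMap | .adj => fun v => E (v 0) (v 1)

/-- truth of a first-order formula in `(M, E)` -/
def Holds (φ : Language.graph.Formula ℕ) (v : ℕ → M) : Prop :=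
  @Language.Formula.Realize _ _ (relStr E) _ φ v

/-- `(M, E)` is a model of ZFC -/
structure ZFC : Prop where
  ext : ∀ x y, ISub E x y → ISub E y x → x = y
  found : ∀ x a, E a x → ∃ y, E y x ∧ ∀ z, E z y → ¬ E z x
  pair : ∀ a b, ∃ y, E a y ∧ E b y
  union : ∀ x, ∃ y, ∀ a b, E a b → E b x → E a y
  power : ∀ x, ∃ y, ∀ z, ISub E z x → E z y
  inf : ∃ w, IInd E w
  sep : ∀ φ v x, ∃ y, ∀ z, E z y ↔ E z x ∧ Holds E φ (Function.update v 0 z)
  coll : ∀ φ v x,
    (∀ a, E a x → ∃ b, Holds E φ (Function.update (Function.update v 0 a) 1 b)) →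
      ∃ y, ∀ a, E a x → ∃ b, E b y ∧ Holds E φ (Function.update (Function.update v 0 a) 1 b)
  choice : ∀ x, (∀ y z a, E y x → E z x → E a y → E a z → y = z) →
    ∃ c, ∀ y a, E y x → E a y → ∃ b, E b y ∧ E b c ∧ ∀ b', E b' y → E b' c → b' = b

end Pool.Agent.ZFC77
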